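import Pool.Agent.Work.MP_dfab40_lc.R.B.Code

/-!
# Module `Beta` (size M): coding of finite sequences

* `Df.beta`: first over `∅` for the two coordinates of `M × M`: `Df.mu` (with `S = ∅`) for
  `P (z, i) u := In (pr i u) (fs z) (sn z) ∨ u = fs z` (`Dp.or`, `Dp.inn`, `Dp.eq`, `Df.pr`, `Df.fs`,
  `Df.sn`, `Df.fst`, `Df.snd`, `Df.id`), total because `u = fs z` is a witness.  Then
  `S1.mono (Set.empty_subset S)` (a `Df` is an `S1` statement) and `Df.comp` with `Df.pair hf hg`.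
* `exists_beta`: let `c` be a bound of `f` on `[0, n)` (`Df.bdd`), `N = (n + c) * (n + c)`.
  `exists_code` for `P w := sn w = f (fs w)` (`Dp.eq`, `Df.comp hf`) and the number `N` gives `p, q`.
  Put `z = pr p q` (`fs z = p`, `sn z = q`).  Let `i < n`.  Then `f i < c`, `pr i (f i) < N`
  (`pr_lt_sq`), so `In (pr i (f i)) p q`; hence `f i ≤ pr i (f i) < p` (`right_le_pr`, `In.lt`).
  `beta z i ≤ f i` by `mu_le`.  `u = beta z i` satisfies (`mu_spec`) `In (pr i u) p q ∨ u = p`; the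
  second is impossible (`u ≤ f i < p`), and `u ≤ f i < c` gives `pr i u < N`, so
  `sn (pr i u) = f (fs (pr i u))`, i.e. `u = f i`.  (`mu_spec`, `mu_le` with `S = ∅` and the `Dp`
  fact in one variable `u`: `Dp.or (Dp.inn ..) (Dp.eq ..)` with constants `Df.const`.)
-/

namespace Pool.Agent.Work.MP_dfab40_lc.R

variable {M : Type} [PAm M] [ISig M] {A : Type} [Cd M A] {S : Set (Set M)}

/-- The `i`-th member of the sequence coded by `z`. -/
noncomputable def beta (z i : M) : M := mu (fun u => In (pr i u) (fs z) (sn z) ∨ u = fs z)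

private theorem beta_df0 : Df S (fun p : M × M => beta p.1 p.2) := by
  have h1 : Dp (∅ : Set (Set M)) (fun p : (M × M) × M =>
      In (pr p.1.2 p.2) (fs p.1.1) (sn p.1.1) ∨ p.2 = fs p.1.1) :=
    Dp.or (Dp.inn (Df.pr (Df.snd (Df.fst Df.id)) (Df.snd Df.id)) (Df.fs (Df.fst (Df.fst Df.id)))
      (Df.sn (Df.fst (Df.fst Df.id)))) (Dp.eq (Df.snd Df.id) (Df.fs (Df.fst (Df.fst Df.id))))
  have h2 : Df (∅ : Set (Set M)) (fun p : M × M => beta p.1 p.2) :=
    Df.mu (P := fun (p : M × M) u => In (pr p.2 u) (fs p.1) (sn p.1) ∨ u = fs p.1) h1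
      (fun a => ⟨_, Or.inr rfl⟩)
  exact S1.mono (Set.empty_subset S) h2

theorem Df.beta {f g : A → M} (hf : Df S f) (hg : Df S g) : Df S (fun a => beta (f a) (g a)) := by
  exact Df.comp (f := fun p : M × M => R.beta p.1 p.2) (g := fun a => (f a, g a)) beta_df0
    (Df.pair hf hg)

theorem exists_beta [IS S] {f : M → M} (hf : Df S f) (n : M) : ∃ z, ∀ i, i < n → beta z i = f i := by
  obtain ⟨c, hc⟩ := Df.bdd hf n
  obtain ⟨p, q, hp, hq, h⟩ := exists_code (S := S) (P := fun w => sn w = f (fs w))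
    (Dp.eq (Df.sn Df.id) (Df.comp hf (Df.fs Df.id))) ((n + c) * (n + c))
  refine ⟨pr p q, fun i hi => ?_⟩
  have hfi := hc i hi
  have h1 : ∀ u, u < c → pr i u < (n + c) * (n + c) := fun u hu =>
    pr_lt_sq (lt_of_lt_of_le hi (le_add_of_nonneg_right zero_le))
      (lt_of_lt_of_le hu (le_add_of_nonneg_left zero_le))
  have h2 : In (pr i (f i)) p q := (h _ (h1 _ hfi)).2 (by simp)
  have h3 : f i < p := lt_of_le_of_lt (right_le_pr _ _) (In.lt hp hq h2)
  have hD : Dp (∅ : Set (Set M))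
      (fun u => In (pr i u) (fs (pr p q)) (sn (pr p q)) ∨ u = fs (pr p q)) :=
    Dp.or (Dp.inn (Df.pr (Df.const i) Df.id) (Df.const _) (Df.const _))
      (Dp.eq Df.id (Df.const _))
  have h4 : beta (pr p q) i ≤ f i := mu_le hD (Or.inl (by rw [fs_pr, sn_pr]; exact h2))
  have h5 : In (pr i (beta (pr p q) i)) (fs (pr p q)) (sn (pr p q)) ∨
      beta (pr p q) i = fs (pr p q) := mu_spec hD ⟨_, Or.inr rfl⟩
  rw [fs_pr, sn_pr] at h5
  rcases h5 with h5 | h5
  · have h6 := (h _ (h1 _ (lt_of_le_of_lt h4 hfi))).1 h5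
    simpa using h6
  · exact absurd h3 (not_lt.2 (h5 ▸ h4))

end Pool.Agent.Work.MP_dfab40_lc.R
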