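import Pool.Agent.Work.MP_dfab40_lc.R.ApiA

/-!
# Module `CMul` (size S): common multiples

`ind_S1` (with `S = ∅`) for `P n := ∃ b, 0 < b ∧ ∀ d, d < n → 0 < d → d ∣ b`.  The predicate is `S1`:
`S1.ex` of `S1.and` (`Dp.lt` ..`.1`) and `S1.ball` of an `S1.or`/`Dp.imp` of `Dp.lt` and
`d ∣ b` (unfold `Dvd`: `∃ c, b = d * c`, `S1.ex` of `(Dp.eq ..).1` with `Df.mul`; write the
implication `0 < d → Q` as `¬ 0 < d ∨ Q`, `S1.or`).
Base: `b = 1` (no `d < 0`: `not_lt_zero'` or `not_lt.2 (zero_le _)`).  Step: `b' = b * n` if `0 < n`,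
`b' = b` if `n = 0`; `d < n + 1` gives `d < n` or `d = n` (`lt_succ_iff`).
-/

namespace Pool.Agent.Work.MP_dfab40_lc.R

variable {M : Type} [PAm M] [ISig M]

/-- Every initial segment has a positive common multiple. -/
theorem exists_common_multiple (n : M) : ∃ b, 0 < b ∧ ∀ d, d < n → 0 < d → d ∣ b := by
  have hP : S1 (∅ : Set (Set M)) (fun n : M =>
      ∃ b : M, 0 < b ∧ ∀ d, d < n → (¬ 0 < d ∨ ∃ c : M, b = d * c)) := by
    apply S1.ex (P := fun (n b : M) => 0 < b ∧ ∀ d, d < n → (¬ 0 < d ∨ ∃ c : M, b = d * c))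
    apply S1.and
    · exact (Dp.lt (Df.const 0) (Df.snd Df.id)).1
    · exact S1.ball (f := fun p : M × M => p.1)
        (P := fun (p : M × M) (d : M) => ¬ 0 < d ∨ ∃ c : M, p.2 = d * c) (Df.fst Df.id)
        (S1.or (Dp.not (Dp.lt (Df.const 0) (Df.snd Df.id))).1
          (S1.ex (P := fun (q : (M × M) × M) (c : M) => q.1.2 = q.2 * c)
            (Dp.eq (Df.snd (Df.fst (Df.fst Df.id)))
              (Df.mul (Df.snd (Df.fst Df.id)) (Df.snd Df.id))).1))
  have hmain := ind_S1 hP ?_ ?_ n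
  · obtain ⟨b, hb, h⟩ := hmain
    refine ⟨b, hb, fun d hd hd0 => ?_⟩
    rcases h d hd with h1 | ⟨c, hc⟩
    · exact absurd hd0 h1
    · exact ⟨c, hc⟩
  · exact ⟨1, zero_lt_one, fun d hd => absurd hd (not_lt.2 (zero_le))⟩
  · rintro x ⟨b, hb, h⟩
    rcases (zero_le : (0 : M) ≤ x).eq_or_lt with hx | hx
    · subst hx
      refine ⟨b, hb, fun d hd => ?_⟩
      rcases (lt_succ_iff.1 hd).eq_or_lt with h1 | h1
      · left
        rw [h1]
        exact lt_irrefl _
      · exact absurd h1 (not_lt.2 (zero_le))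
    · refine ⟨b * x, mul_pos hb hx, fun d hd => ?_⟩
      rcases (lt_succ_iff.1 hd).eq_or_lt with h1 | h1
      · right
        exact ⟨b, by rw [h1, mul_comm]⟩
      · rcases h d h1 with h2 | ⟨c, hc⟩
        · exact Or.inl h2
        · right
          exact ⟨c * x, by rw [hc, mul_assoc]⟩

end Pool.Agent.Work.MP_dfab40_lc.R
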