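import Pool.Agent.Work.MP_dfab40_lc.R.B.InDef
import Pool.Agent.Work.MP_dfab40_lc.R.B.CMul

/-!
# Module `Code` (size M): comprehension for the divisibility coding

Take `q > 0` a common multiple of all `0 < d < n` (`exists_common_multiple`).  For `x < y < n` the
moduli `m_x = 1 + (x+1) q`, `m_y` are invertible modulo each other (`cop_moduli`: if `x + d = y` then
`0 < d`, `d ≤ y < n`, so `d ∣ q`).
By `ind_S1` on `k` prove `∃ p, 0 < p ∧ ∀ z, z < n → ((z < k ∧ P z) ∧ m_z ∣ p) ∨ (¬ (z < k ∧ P z) ∧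
Cop p m_z)`.  It is `S1 S` in `k`: `S1.ex`, `S1.and`, `S1.ball` (bound the constant `n`), `S1.or`;
`z < k ∧ P z` and its negation are `Dp` (`hP` composed with a projection: `Dp.comp hP (Df.snd ..)`),
`m_z ∣ p` and `Cop p m_z` are existential quantifications of equations (`S1.ex`, `(Dp.eq ..).1`).
Base `k = 0`: `p = 1` (`1 * 1 = 1 + m * 0`).  Step: if `k < n` and `P k` put `p' = p * m_k`:
for `z = k`: `m_k ∣ p'`; for `z < k`, `P z`: `m_z ∣ p ∣ p'`; for the other `z` (`z ≠ k`):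
`Cop.mul` of `Cop p m_z` and `Cop m_k m_z` (`cop_moduli`, both orders).  Otherwise `p' = p`.
At the end take `k = n`; for `z < n`: `P z` gives `m_z ∣ p`; `¬ P z` gives `Cop p m_z`, so `¬ m_z ∣ p`
by `Cop.not_dvd` (`1 < m_z` because `(z+1) q > 0`).
-/

namespace Pool.Agent.Work.MP_dfab40_lc.R

variable {M : Type} [PAm M] [ISig M] {S : Set (Set M)}

private theorem S1cop {A : Type} [Cd M A] {f g : A → M} (hf : Df S f) (hg : Df S g) :
    S1 S (fun a => Cop (f a) (g a)) := by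
  unfold Cop
  apply S1.ex (P := fun (a : A) (u : M) => ∃ v, f a * u = 1 + g a * v)
  apply S1.ex (P := fun (p : A × M) (v : M) => f p.1 * p.2 = 1 + g p.1 * v)
  exact (Dp.eq (Df.mul (Df.comp hf (Df.fst (Df.fst Df.id))) (Df.snd (Df.fst Df.id)))
    (Df.add (Df.const 1) (Df.mul (Df.comp hg (Df.fst (Df.fst Df.id))) (Df.snd Df.id)))).1

omit [ISig M] in
private theorem cop_pair {n q : M} (hq : 0 < q) (hd : ∀ d, d < n → 0 < d → d ∣ q) {x y : M}
    (hx : x < n) (hy : y < n) (hne : x ≠ y) : Cop (1 + (x + 1) * q) (1 + (y + 1) * q) := by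
  have key : ∀ x y : M, y < n → x < y →
      Cop (1 + (x + 1) * q) (1 + (y + 1) * q) ∧ Cop (1 + (y + 1) * q) (1 + (x + 1) * q) := by
    intro x y hy hxy
    refine cop_moduli hxy hq ?_
    intro d hd'
    apply hd d
    · exact lt_of_le_of_lt (hd' ▸ le_add_self) hy
    · rcases eq_or_ne d 0 with h0 | h0
      · rw [h0, add_zero] at hd'
        exact absurd hd' hxy.ne
      · exact pos_iff_ne_zero.mpr h0
  rcases lt_or_gt_of_ne hne with h | h
  · exact (key x y hy h).1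
  · exact (key y x hx h).2

theorem exists_code [IS S] {P : M → Prop} (hP : Dp S P) (n : M) :
    ∃ p q, 0 < p ∧ 0 < q ∧ ∀ z, z < n → (In z p q ↔ P z) := by
  obtain ⟨q, hq, hd⟩ := exists_common_multiple n
  have hS : S1 S (fun k : M => ∃ p, 0 < p ∧ ∀ z, z < n →
      ((z < k ∧ P z) ∧ In z p q) ∨ (¬ (z < k ∧ P z) ∧ Cop p (1 + (z + 1) * q))) := by
    apply S1.ex (P := fun (k p : M) => 0 < p ∧ ∀ z, z < n →
      ((z < k ∧ P z) ∧ In z p q) ∨ (¬ (z < k ∧ P z) ∧ Cop p (1 + (z + 1) * q)))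
    apply S1.and (Dp.lt (Df.const 0) (Df.snd Df.id)).1
    apply S1.ball (f := fun _ : M × M => n) (P := fun (a : M × M) z =>
      ((z < a.1 ∧ P z) ∧ In z a.2 q) ∨ (¬ (z < a.1 ∧ P z) ∧ Cop a.2 (1 + (z + 1) * q)))
      (Df.const n)
    have h1 : Dp S (fun a : (M × M) × M => a.2 < a.1.1 ∧ P a.2) :=
      Dp.and (Dp.lt (Df.snd Df.id) (Df.fst (Df.fst Df.id))) (Dp.comp hP (Df.snd Df.id))
    apply S1.or
    · exact S1.and h1.1 (Dp.inn (Df.snd Df.id) (Df.snd (Df.fst Df.id)) (Df.const q)).1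
    · exact S1.and h1.not.1 (S1cop (Df.snd (Df.fst Df.id))
        (Df.add (Df.const 1) (Df.mul (Df.add (Df.snd Df.id) (Df.const 1)) (Df.const q))))
  have hk := ind_S1 hS ?_ ?_ n
  · obtain ⟨p, hp, h⟩ := hk
    refine ⟨p, q, hp, hq, fun z hz => ?_⟩
    rcases h z hz with ⟨⟨_, h1⟩, h2⟩ | ⟨h1, h2⟩
    · exact ⟨fun _ => h1, fun _ => h2⟩
    · have h3 : ¬ P z := fun h4 => h1 ⟨hz, h4⟩
      refine ⟨fun h4 => ?_, fun h4 => absurd h4 h3⟩
      refine absurd h4 (Cop.not_dvd h2 ?_)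
      have h5 : 0 < (z + 1) * q := mul_pos (lt_of_lt_of_le one_pos le_add_self) hq
      exact lt_add_of_pos_right 1 h5
  · refine ⟨1, one_pos, fun z _ => Or.inr ⟨fun h => ?_, 1, 0, ?_⟩⟩
    · exact not_lt_zero h.1
    · simp
  · rintro k ⟨p, hp, h⟩
    by_cases hk : k < n ∧ P k
    · refine ⟨p * (1 + (k + 1) * q), ?_, fun z hz => ?_⟩
      · exact mul_pos hp (lt_of_lt_of_le one_pos le_self_add)
      · by_cases hzk : z = k
        · left
          rw [hzk]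
          exact ⟨⟨lt_succ_iff.mpr le_rfl, hk.2⟩, Dvd.intro_left _ rfl⟩
        · rcases h z hz with ⟨h1, h2⟩ | ⟨h1, h2⟩
          · left
            exact ⟨⟨lt_succ_iff.mpr h1.1.le, h1.2⟩, Dvd.dvd.mul_right h2 _⟩
          · right
            refine ⟨fun h3 => h1 ⟨?_, h3.2⟩, Cop.mul h2 (cop_pair hq hd hk.1 hz (Ne.symm hzk))⟩
            exact lt_of_le_of_ne (lt_succ_iff.mp h3.1) hzk
    · refine ⟨p, hp, fun z hz => ?_⟩
      rcases h z hz with ⟨h1, h2⟩ | ⟨h1, h2⟩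
      · left
        exact ⟨⟨lt_succ_iff.mpr h1.1.le, h1.2⟩, h2⟩
      · right
        refine ⟨fun h3 => ?_, h2⟩
        rcases eq_or_lt_of_le (lt_succ_iff.mp h3.1) with h4 | h4
        · exact hk ⟨h4 ▸ hz, h4 ▸ h3.2⟩
        · exact h1 ⟨h4, h3.2⟩

end Pool.Agent.Work.MP_dfab40_lc.R
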