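import Pool.Agent.Work.MP_dfab40_lc.R.B.ExtB

/-!
# Module `Compr` (size M): comprehension

* `compr`: `ind_S1` on `n` for `∃ a, a < pow2 n ∧ ∀ x, x < n → (Mem x a ↔ P x)` (`S1.ex`, `Dp.and`,
  `Dp.lt`, `Dp.ball`, `Dp.iff`, `Dp.mem`, `hP` composed with a projection).  Base: `a = 0`.  Step: if
  `P n` put `a' = pow2 n + a` (`mem_top`, `mem_low'`, `pow2_succ`), else `a' = a`
  (`not_mem_of_lt_pow2`).  From `a < pow2 n` the members of `a` are `< n` (`mem_lt_of_lt_pow2`).
* `mem_sep`: `dif_pos` and `choose_spec`.  `sep_lt`: `lt_pow2_iff`.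
* `Df.sep`: `Df.of_graph`: `sep (f a) (P a) = b ↔ ∀ x, x < f a + b → (Mem x b ↔ (x < f a ∧ P a x))`:
  (→) `mem_sep` for the one variable predicate `P a` (`Dp.comp hP (Df.pair (Df.const a) Df.id)`).
  (←) `mem_ext`: for `x ≥ f a + b` both sides fail (`mem_lt`).  The right side is `Dp`: `Dp.ball`,
  `Dp.iff`, `Dp.and`, `Dp.comp hP` with projections; take `.1`.
-/

namespace Pool.Agent.Work.MP_dfab40_lc.R

variable {M : Type} [PAm M] [ISig M] {A : Type} [Cd M A] {S : Set (Set M)}

/-- Comprehension. -/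
theorem compr [IS S] {P : M → Prop} (hP : Dp S P) (n : M) : ∃ a, ∀ x, Mem x a ↔ x < n ∧ P x := by
  have key : ∃ a, a < pow2 n ∧ ∀ x, x < n → (Mem x a ↔ P x) := by
    have hS : S1 S (fun m : M => ∃ a, a < pow2 m ∧ ∀ x, x < m → (Mem x a ↔ P x)) := by
      refine S1.ex (P := fun m a => a < pow2 m ∧ ∀ x, x < m → (Mem x a ↔ P x)) ?_
      have h1 : Dp S (fun p : M × M => p.2 < pow2 p.1) :=
        Dp.lt (Df.snd Df.id) (Df.pow2 (Df.fst Df.id))
      have h2 : Dp S (fun p : M × M => ∀ x, x < p.1 → (Mem x p.2 ↔ P x)) := by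
        refine Dp.ball (f := fun p : M × M => p.1) (P := fun p x => (Mem x p.2 ↔ P x))
          (Df.fst Df.id) ?_
        exact Dp.iff (Dp.mem (Df.snd Df.id) (Df.snd (Df.fst Df.id)))
          (Dp.comp hP (Df.snd Df.id))
      exact (Dp.and h1 h2).1
    refine ind_S1 (P := fun m : M => ∃ a, a < pow2 m ∧ ∀ x, x < m → (Mem x a ↔ P x)) hS ?_ ?_ n
    · refine ⟨0, pow2_pos 0, ?_⟩
      intro x hx
      exact absurd hx (not_lt.2 zero_le)
    · rintro m ⟨a, ha, hm⟩
      by_cases hPm : P m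
      · refine ⟨pow2 m + a, ?_, ?_⟩
        · rw [pow2_succ, two_mul]
          exact (add_lt_add_iff_left (pow2 m)).2 ha
        · intro x hx
          rcases eq_or_lt_of_le (lt_succ_iff.1 hx) with h | h
          · rw [h]
            exact ⟨fun _ => hPm, fun _ => mem_top ha⟩
          · rw [mem_low' a h]
            exact hm x h
      · refine ⟨a, ha.trans (pow2_lt (lt_succ_iff.2 le_rfl)), ?_⟩
        intro x hx
        rcases eq_or_lt_of_le (lt_succ_iff.1 hx) with h | h
        · rw [h]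
          exact ⟨fun h' => absurd h' (not_mem_of_lt_pow2 ha), fun h' => absurd h' hPm⟩
        · exact hm x h
  obtain ⟨a, ha, h⟩ := key
  refine ⟨a, fun x => ⟨fun hx => ?_, fun hx => (h x hx.1).2 hx.2⟩⟩
  have hxn := mem_lt_of_lt_pow2 ha hx
  exact ⟨hxn, (h x hxn).1 hx⟩

theorem mem_sep [IS S] {P : M → Prop} (hP : Dp S P) {n x : M} : Mem x (sep n P) ↔ x < n ∧ P x := by
  have h := compr hP n
  unfold sep
  rw [dif_pos h]
  exact h.choose_spec x

theorem sep_lt [IS S] {P : M → Prop} (hP : Dp S P) (n : M) : sep n P < pow2 n :=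
  lt_pow2_iff.2 fun _ hx => ((mem_sep hP).1 hx).1

theorem Df.sep [IS S] {f : A → M} {P : A → M → Prop} (hf : Df S f)
    (hP : Dp S (fun p : A × M => P p.1 p.2)) : Df S (fun a => sep (f a) (P a)) := by
  refine Df.of_graph (R := fun a b => ∀ x, x < f a + b → (Mem x b ↔ (x < f a ∧ P a x))) ?_ ?_
  · have h1 : Dp S (fun p : A × M => ∀ x, x < f p.1 + p.2 → (Mem x p.2 ↔ (x < f p.1 ∧ P p.1 x))) := by
      refine Dp.ball (f := fun p : A × M => f p.1 + p.2)
        (P := fun p x => (Mem x p.2 ↔ (x < f p.1 ∧ P p.1 x)))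
        (Df.add (Df.comp hf (Df.fst Df.id)) (Df.snd Df.id)) ?_
      refine Dp.iff (Dp.mem (Df.snd Df.id) (Df.snd (Df.fst Df.id))) (Dp.and ?_ ?_)
      · exact Dp.lt (Df.snd Df.id) (Df.comp hf (Df.fst (Df.fst Df.id)))
      · exact Dp.comp (P := fun p : A × M => P p.1 p.2)
          (f := fun p : (A × M) × M => (p.1.1, p.2)) hP
          (Df.pair (Df.fst (Df.fst Df.id)) (Df.snd Df.id))
    exact h1.1
  · intro a b
    have hPa : Dp S (P a) :=
      Dp.comp (P := fun p : A × M => P p.1 p.2) (f := fun x : M => (a, x)) hP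
        (Df.pair (Df.const a) Df.id)
    constructor
    · intro h x _
      rw [← h]
      exact mem_sep hPa
    · intro h
      apply mem_ext
      intro x
      rw [mem_sep hPa]
      rcases lt_or_ge x (f a + b) with hx | hx
      · exact (h x hx).symm
      · constructor
        · intro h'
          exact absurd (lt_of_lt_of_le h'.1 (le_add_of_nonneg_right zero_le)) (not_lt.2 hx)
        · intro h'
          exact absurd (lt_of_lt_of_le (mem_lt h') (le_add_of_nonneg_left zero_le)) (not_lt.2 hx)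

end Pool.Agent.Work.MP_dfab40_lc.R
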