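import Pool.Agent.Work.MP_dfab40_lc.R.ApiA

/-!
# Module `Cop` (size S-M): invertibility modulo `m` (pure algebra in `M`, no logic)

`M` is a linearly ordered canonically ordered commutative semiring with cancellation (`PAm`).
Useful: `exists_add_of_le`, `exists_pos_add_of_lt'`, `add_left_cancel`, `mul_left_cancel₀`, `ring`,
`PAm.one_le_of_pos`.

* `Cop.mul`: `(a * u) * (a' * u') = (1 + m v) (1 + m v') = 1 + m (v + v' + m v v')`.
* `Cop.of_neg`: let `m = 1 + c`.  Put `u = A * c`.  From `a A + 1 = m B` we get `B > 0`, so `B * c > 0`,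
  `B * c = v + 1`.  Now `a (A c) + c = m B c = m v + m = m v + 1 + c`, hence `a (A c) = 1 + m v`.
* `Cop.not_dvd`: if `a = m * k` then `m * (k * u) = 1 + m * v`; so `k * u > v` (otherwise
  `m * (k u) ≤ m v`), `k u = v + d` with `d ≥ 1`, `m * d = 1`, but `m * d ≥ m > 1`.
* `cop_moduli`: write `y = x + d`, `d > 0`, `b = d * t`, `t > 0`, `m = 1 + (x+1) b`, `m' = 1 + (y+1) b`.
  Identity (I): `m * 1 + ... `: `1 + (t (x+1) (y+1)) m = m + (t (x+1)^2) m'` (by `ring` after the
  substitution `b = d t`, `y = x + d`).  As `t (x+1) (y+1) ≥ 1`, write it as `e + 1`: so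
  `1 + e m = (t (x+1)^2) m'`, which says `m' * (t (x+1)^2) = 1 + m * e`, i.e. `Cop m' m`.
  Identity (II): `m * (t (y+1)^2) + 1 = m' * (t (x+1) (y+1) + 1)` (by `ring` after the substitution),
  so `Cop m m'` by `Cop.of_neg` with `c = (y+1) b`.
-/

namespace Pool.Agent.Work.MP_dfab40_lc.R

variable {M : Type} [PAm M]

/-- `a` is invertible modulo `m`. -/
def Cop (a m : M) : Prop := ∃ u v, a * u = 1 + m * v

theorem Cop.mul {a a' m : M} (h : Cop a m) (h' : Cop a' m) : Cop (a * a') m := by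
  obtain ⟨u, v, h1⟩ := h
  obtain ⟨u', v', h2⟩ := h'
  refine ⟨u * u', v + v' + m * v * v', ?_⟩
  calc a * a' * (u * u') = (a * u) * (a' * u') := by ring
    _ = (1 + m * v) * (1 + m * v') := by rw [h1, h2]
    _ = _ := by ring

theorem Cop.of_neg {a c A B : M} (hc : 0 < c) (h : a * A + 1 = (1 + c) * B) : Cop a (1 + c) := by
  have hB : 0 < B := by
    rcases (zero_le : (0 : M) ≤ B).eq_or_lt with h0 | h0
    · exfalso
      rw [← h0, mul_zero] at h
      have h1 : (1 : M) ≤ a * A + 1 := le_add_left (le_refl _)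
      rw [h] at h1
      exact absurd h1 (not_le.2 zero_lt_one)
    · exact h0
  have hBc : 0 < B * c := mul_pos hB hc
  obtain ⟨v, hv⟩ := exists_add_of_le (PAm.one_le_of_pos _ hBc)
  refine ⟨A * c, v, ?_⟩
  have h2 : a * (A * c) + c = (1 + (1 + c) * v) + c := by
    calc a * (A * c) + c = (a * A + 1) * c := by ring
      _ = (1 + c) * (B * c) := by rw [h]; ring
      _ = (1 + c) * (1 + v) := by rw [hv]
      _ = _ := by ring
  exact add_right_cancel h2

theorem Cop.not_dvd {a m : M} (h : Cop a m) (hm : 1 < m) : ¬ m ∣ a := by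
  rintro ⟨k, rfl⟩
  obtain ⟨u, v, h1⟩ := h
  have hm0 : 0 < m := lt_trans zero_lt_one hm
  have hlt : v < k * u := by
    by_contra hcon
    have h2 : k * u ≤ v := not_lt.1 hcon
    have h3 : m * (k * u) ≤ m * v := mul_le_mul_right h2 m
    have h4 : m * k * u = m * (k * u) := mul_assoc _ _ _
    rw [h4] at h1
    rw [h1] at h3
    have h5 : m * v < 1 + m * v := lt_add_of_pos_left _ zero_lt_one
    exact absurd h3 (not_le.2 h5)
  obtain ⟨d, hd⟩ := exists_add_of_le hlt.le
  have hd0 : 0 < d := by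
    rcases (zero_le : (0 : M) ≤ d).eq_or_lt with h0 | h0
    · exfalso
      rw [← h0, add_zero] at hd
      exact absurd hlt (by rw [hd]; exact lt_irrefl _)
    · exact h0
  have h2 : m * d + m * v = 1 + m * v := by
    rw [← h1, mul_assoc, hd]
    ring
  have h3 : m * d = 1 := add_right_cancel h2
  have h4 : m * 1 ≤ m * d := mul_le_mul_right (PAm.one_le_of_pos _ hd0) m
  rw [h3, mul_one] at h4
  exact absurd h4 (not_le.2 hm)

/-- If `b` is a multiple of `y - x` then `1 + (x+1) b` and `1 + (y+1) b` are invertible modulo each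
other. -/
theorem cop_moduli {x y b : M} (hxy : x < y) (hb : 0 < b) (hd : ∀ d, x + d = y → d ∣ b) :
    Cop (1 + (x + 1) * b) (1 + (y + 1) * b) ∧ Cop (1 + (y + 1) * b) (1 + (x + 1) * b) := by
  obtain ⟨d, hd1⟩ := exists_add_of_le hxy.le
  obtain ⟨t, ht⟩ := hd d hd1.symm
  have ht0 : 0 < t := by
    rcases (zero_le : (0 : M) ≤ t).eq_or_lt with h0 | h0
    · exfalso
      rw [← h0, mul_zero] at ht
      rw [ht] at hb
      exact absurd hb (lt_irrefl _)
    · exact h0
  constructor
  · apply Cop.of_neg (A := t * (y + 1) ^ 2) (B := t * (x + 1) * (y + 1) + 1)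
    · exact mul_pos (lt_of_lt_of_le zero_lt_one (le_add_left (le_refl _))) hb
    · subst hd1 ht
      ring
  · have hpos : 0 < t * (x + 1) * (y + 1) :=
      mul_pos (mul_pos ht0 (lt_of_lt_of_le zero_lt_one (le_add_left (le_refl _))))
        (lt_of_lt_of_le zero_lt_one (le_add_left (le_refl _)))
    obtain ⟨e, he⟩ := exists_add_of_le (PAm.one_le_of_pos _ hpos)
    refine ⟨t * (x + 1) ^ 2, e, ?_⟩
    have h1 : (1 + (y + 1) * b) * (t * (x + 1) ^ 2) + (1 + (x + 1) * b) =
        1 + (t * (x + 1) * (y + 1)) * (1 + (x + 1) * b) := by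
      subst hd1 ht
      ring
    rw [he] at h1
    have h2 : (1 + (y + 1) * b) * (t * (x + 1) ^ 2) + (1 + (x + 1) * b) =
        (1 + (1 + (x + 1) * b) * e) + (1 + (x + 1) * b) := by
      rw [h1]
      ring
    exact add_right_cancel h2

end Pool.Agent.Work.MP_dfab40_lc.R
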