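import Pool.Agent.Work.MP_dfab40_lc.R.B.PowL

/-!
# Module `Dig` (size M): binary digits

* `Dp.mem`: over `∅` for the coordinates of `M × M`: `Mem x a ↔ ∃ q, q < a + 1 ∧ ∃ r, r < a + 1 ∧
  (r < pow2 x ∧ a = pow2 (x + 1) * q + pow2 x + r)` (`q ≤ pow2 (x+1) * q ≤ a`, `r ≤ a`), `Dp.bex`
  twice (`S = ∅`), `Dp.and`, `Dp.lt`, `Dp.eq`, `Df.pow2`; then `Dp.mono (Set.empty_subset S)` and
  `Dp.comp` with `Df.pair hf hg`.
* `mem_lt_of_lt_pow2`: `pow2 x ≤ a < pow2 n`; if `n ≤ x` then `pow2 n ≤ pow2 x` (`pow2_le`).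
* `mem_low`: `n = (x + 1) + e`, `pow2 n = pow2 (x+1) * pow2 e` (`pow2_add`).  (→) `pow2 n * k + r =
  pow2 (x+1) * q + pow2 x + s`, `s < pow2 x`.  Divide (`exists_div`): `r = pow2 (x+1) * q' + t`,
  `t < pow2 (x+1) = 2 * pow2 x`.  `div_unique` for `pow2 (x+1)` (remainders `t`, `pow2 x + s`) gives
  `t = pow2 x + s`, so `r = pow2 (x+1) * q' + pow2 x + s`.  (←) `r = pow2 (x+1) * q + pow2 x + s` gives
  `pow2 n * k + r = pow2 (x+1) * (pow2 e * k + q) + pow2 x + s`.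
* `mem_top`: `q = 0`.  `not_mem_of_lt_pow2`: from `mem_lt_of_lt_pow2`.
* `exists_digit_top`: `a = pow2 n + r` (`exists_add_of_le`), `pow2 n + r < pow2 (n+1) = pow2 n + pow2 n`.
-/

namespace Pool.Agent.Work.MP_dfab40_lc.R

variable {M : Type} [PAm M] [ISig M] {A : Type} [Cd M A] {S : Set (Set M)}

private theorem dig_half {x s : M} (hs : s < pow2 x) : pow2 x + s < pow2 (x + 1) := by
  rw [pow2_succ, two_mul]
  exact (add_lt_add_iff_left (pow2 x)).2 hs

theorem Dp.mem {f g : A → M} (hf : Df S f) (hg : Df S g) : Dp S (fun a => Mem (f a) (g a)) := by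
  have h0 : Dp (∅ : Set (Set M)) (fun p : M × M => Mem p.1 p.2) := by
    have h1 : Dp (∅ : Set (Set M)) (fun p : M × M => ∃ q, q < p.2 + 1 ∧ ∃ r, r < p.2 + 1 ∧
        (r < pow2 p.1 ∧ p.2 = pow2 (p.1 + 1) * q + pow2 p.1 + r)) := by
      refine Dp.bex (f := fun p : M × M => p.2 + 1) (P := fun p q => ∃ r, r < p.2 + 1 ∧
        (r < pow2 p.1 ∧ p.2 = pow2 (p.1 + 1) * q + pow2 p.1 + r))
        (Df.add (Df.snd Df.id) (Df.const 1)) ?_
      refine Dp.bex (f := fun p : (M × M) × M => p.1.2 + 1) (P := fun p r =>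
        (r < pow2 p.1.1 ∧ p.1.2 = pow2 (p.1.1 + 1) * p.2 + pow2 p.1.1 + r))
        (Df.add (Df.snd (Df.fst Df.id)) (Df.const 1)) ?_
      have hx : Df (∅ : Set (Set M)) (fun p : ((M × M) × M) × M => p.1.1.1) :=
        Df.fst (Df.fst (Df.fst Df.id))
      have ha : Df (∅ : Set (Set M)) (fun p : ((M × M) × M) × M => p.1.1.2) :=
        Df.snd (Df.fst (Df.fst Df.id))
      have hq : Df (∅ : Set (Set M)) (fun p : ((M × M) × M) × M => p.1.2) :=
        Df.snd (Df.fst Df.id)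
      have hr : Df (∅ : Set (Set M)) (fun p : ((M × M) × M) × M => p.2) := Df.snd Df.id
      refine Dp.and (Dp.lt hr (Df.pow2 hx)) (Dp.eq ha ?_)
      exact Df.add (Df.add (Df.mul (Df.pow2 (Df.add hx (Df.const 1))) hq) (Df.pow2 hx)) hr
    refine h1.congr fun p => ?_
    constructor
    · rintro ⟨q, _, r, _, hr, h⟩
      exact ⟨q, r, hr, h⟩
    · rintro ⟨q, r, hr, h⟩
      refine ⟨q, ?_, r, ?_, hr, h⟩
      · rw [lt_succ_iff]
        calc q ≤ pow2 (p.1 + 1) * q :=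
              le_mul_of_one_le_left zero_le (PAm.one_le_of_pos _ (pow2_pos _))
          _ ≤ pow2 (p.1 + 1) * q + (pow2 p.1 + r) := le_add_of_nonneg_right zero_le
          _ = p.2 := by rw [h, add_assoc]
      · rw [lt_succ_iff]
        calc r ≤ pow2 (p.1 + 1) * q + pow2 p.1 + r := le_add_of_nonneg_left zero_le
          _ = p.2 := h.symm
  exact (h0.mono (Set.empty_subset S)).comp (Df.pair hf hg)

theorem mem_lt_of_lt_pow2 {x n a : M} (h : a < pow2 n) (hx : Mem x a) : x < n := by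
  by_contra hcon
  obtain ⟨q, r, hr, ha⟩ := hx
  have h1 : pow2 n ≤ pow2 x := pow2_le (not_lt.1 hcon)
  have h2 : pow2 x ≤ a := by
    rw [ha, add_assoc]
    exact le_trans (le_add_of_nonneg_right zero_le) (le_add_of_nonneg_left zero_le)
  exact absurd h (not_lt.2 (h1.trans h2))

theorem not_mem_of_lt_pow2 {n a : M} (h : a < pow2 n) : ¬ Mem n a :=
  fun h' => lt_irrefl _ (mem_lt_of_lt_pow2 h h')

theorem mem_low {x n : M} (k r : M) (hx : x < n) : Mem x (pow2 n * k + r) ↔ Mem x r := by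
  obtain ⟨e, he⟩ := exists_add_of_le (succ_le_iff'.2 hx)
  have hp : pow2 n = pow2 (x + 1) * pow2 e := by rw [he, pow2_add]
  constructor
  · rintro ⟨q, s, hs, h⟩
    obtain ⟨q', t, hr, ht⟩ := exists_div r (pow2_pos (x + 1))
    have h1 : pow2 (x + 1) * (pow2 e * k + q') + t = pow2 (x + 1) * q + (pow2 x + s) := by
      rw [← add_assoc, ← h, hr, hp]
      ring
    obtain ⟨-, h2⟩ := div_unique ht (dig_half hs) h1
    refine ⟨q', s, hs, ?_⟩
    rw [hr, h2, add_assoc]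
  · rintro ⟨q, s, hs, h⟩
    refine ⟨pow2 e * k + q, s, hs, ?_⟩
    rw [h, hp]
    ring

theorem mem_top {n r : M} (hr : r < pow2 n) : Mem n (pow2 n + r) :=
  ⟨0, r, hr, by rw [mul_zero, zero_add]⟩

theorem mem_low' {x n : M} (r : M) (hx : x < n) : Mem x (pow2 n + r) ↔ Mem x r := by
  simpa using mem_low 1 r hx

theorem exists_digit_top {n a : M} (h : a < pow2 (n + 1)) (h' : ¬ a < pow2 n) :
    ∃ r, r < pow2 n ∧ a = pow2 n + r := by
  obtain ⟨r, hr⟩ := exists_add_of_le (not_lt.1 h')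
  refine ⟨r, ?_, hr⟩
  rw [hr, pow2_succ, two_mul] at h
  exact lt_of_add_lt_add_left h

end Pool.Agent.Work.MP_dfab40_lc.R
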