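import Pool.Agent.Work.MP_dfab40_lc.R.B.Dig

/-!
# Module `ExtB` (size M): extensionality

* `mem_lt`: `x < pow2 x ≤ a` (`lt_pow2`).  `not_mem_zero`: from `mem_lt`.
* `le_of_subset`: `ind_Dp` (`S = ∅`) on `n` for
  `Q n := ∀ a, a < pow2 n → ∀ b, b < pow2 n → (∀ x, x < n → (Mem x a → Mem x b)) → a ≤ b`
  (`Dp.ball`, `Dp.imp`, `Dp.le`, `Dp.mem`, `Df.pow2`).  `Q 0`: `a < 1` so `a = 0`.  Step: if
  `a < pow2 n` and `b < pow2 n`: induction hypothesis.  If `a < pow2 n ≤ b`: clear.  If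
  `a = pow2 n + r` (`exists_digit_top`): `Mem n a` (`mem_top`), so `Mem n b`, so not `b < pow2 n`
  (`not_mem_of_lt_pow2`), `b = pow2 n + r'`; `mem_low'` and the induction hypothesis give `r ≤ r'`.
  For arbitrary `a, b` take `n = a + b`: `a < pow2 a ≤ pow2 (a + b)`.
* `mem_ext`: `le_antisymm`.
* `lt_pow2_iff`: (→) `mem_lt_of_lt_pow2`.  (←) By contradiction `pow2 n ≤ a`.  Take the least `m` with
  `a < pow2 m` (`least_S1` with `S = ∅`, `(Dp.lt ..).1`, it exists by `lt_pow2 a`).  `m > n`, so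
  `m = k + 1`, `n ≤ k`, `¬ a < pow2 k`, `exists_digit_top`: `a = pow2 k + r`, `Mem k a` (`mem_top`), so `k < n`.
-/

namespace Pool.Agent.Work.MP_dfab40_lc.R

variable {M : Type} [PAm M] [ISig M]

theorem mem_lt {x a : M} (h : Mem x a) : x < a := by
  obtain ⟨q, r, _, rfl⟩ := h
  refine lt_of_lt_of_le (lt_pow2 x) ?_
  exact le_trans le_add_self le_self_add

@[simp] theorem not_mem_zero (x : M) : ¬ Mem x (0 : M) := by
  intro h
  exact not_lt_zero (mem_lt h)

private theorem sub_aux (n : M) : ∀ a, a < pow2 n → ∀ b, b < pow2 n →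
    (∀ x, x < n → (Mem x a → Mem x b)) → a ≤ b := by
  have hD : Dp (∅ : Set (Set M)) (fun n : M => ∀ a, a < pow2 n → ∀ b, b < pow2 n →
      (∀ x, x < n → (Mem x a → Mem x b)) → a ≤ b) := by
    apply Dp.ball (f := fun n : M => pow2 n) (P := fun n a => ∀ b, b < pow2 n →
      (∀ x, x < n → (Mem x a → Mem x b)) → a ≤ b) (Df.pow2 Df.id)
    apply Dp.ball (f := fun p : M × M => pow2 p.1) (P := fun (p : M × M) b =>
      (∀ x, x < p.1 → (Mem x p.2 → Mem x b)) → p.2 ≤ b) (Df.pow2 (Df.fst Df.id))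
    apply Dp.imp
    · apply Dp.ball (f := fun p : (M × M) × M => p.1.1) (P := fun (p : (M × M) × M) x =>
        (Mem x p.1.2 → Mem x p.2)) (Df.fst (Df.fst Df.id))
      exact Dp.imp (Dp.mem (Df.snd Df.id) (Df.snd (Df.fst (Df.fst Df.id))))
        (Dp.mem (Df.snd Df.id) (Df.snd (Df.fst Df.id)))
    · exact Dp.le (Df.snd (Df.fst Df.id)) (Df.snd Df.id)
  refine ind_Dp hD ?_ ?_ n
  · intro a ha b _ _
    rw [pow2_zero] at ha
    have : a = 0 := by
      by_contra h0
      exact absurd (PAm.one_le_of_pos a (pos_iff_ne_zero.mpr h0)) (not_le.mpr ha)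
    rw [this]
    exact zero_le
  · intro n ih a ha b hb h
    by_cases ha' : a < pow2 n
    · by_cases hb' : b < pow2 n
      · exact ih a ha' b hb' fun x hx => h x (lt_succ_iff.mpr hx.le)
      · exact ha'.le.trans (not_lt.mp hb')
    · obtain ⟨r, hr, rfl⟩ := exists_digit_top ha ha'
      have h1 : Mem n b := h n (lt_succ_iff.mpr le_rfl) (mem_top hr)
      have hb' : ¬ b < pow2 n := fun h2 => not_mem_of_lt_pow2 h2 h1
      obtain ⟨r', hr', rfl⟩ := exists_digit_top hb hb'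
      have h2 : r ≤ r' := by
        refine ih r hr r' hr' fun x hx hxr => ?_
        rw [← mem_low' r' hx]
        exact h x (lt_succ_iff.mpr hx.le) ((mem_low' r hx).mpr hxr)
      exact add_le_add_right h2 _

theorem le_of_subset {a b : M} (h : ∀ x, Mem x a → Mem x b) : a ≤ b := by
  refine sub_aux (a + b) a ?_ b ?_ fun x _ => h x
  · exact lt_of_lt_of_le (lt_pow2 a) (pow2_le le_self_add)
  · exact lt_of_lt_of_le (lt_pow2 b) (pow2_le le_add_self)

theorem mem_ext {a b : M} (h : ∀ x, Mem x a ↔ Mem x b) : a = b :=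
  le_antisymm (le_of_subset fun x hx => (h x).mp hx) (le_of_subset fun x hx => (h x).mpr hx)

theorem lt_pow2_iff {a n : M} : a < pow2 n ↔ ∀ x, Mem x a → x < n := by
  constructor
  · intro h x hx
    exact mem_lt_of_lt_pow2 h hx
  · intro h
    by_contra hn
    obtain ⟨m, hm, hmin⟩ := least_S1 (S := ∅) (P := fun m : M => a < pow2 m)
      (Dp.lt (Df.const a) (Df.pow2 Df.id)).1 ⟨a, lt_pow2 a⟩
    have hnm : n < m := by
      by_contra h1
      exact hn (lt_of_lt_of_le hm (pow2_le (not_lt.mp h1)))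
    have hm1 : n + 1 ≤ m := succ_le_iff'.mpr hnm
    obtain ⟨d, rfl⟩ := exists_add_of_le hm1
    have e1 : n + 1 + d = (n + d) + 1 := by ring
    rw [e1] at hm hmin
    have h2 : ¬ a < pow2 (n + d) := hmin _ (lt_succ_iff.mpr le_rfl)
    obtain ⟨r, hr, rfl⟩ := exists_digit_top hm h2
    exact absurd (h _ (mem_top hr)) (not_lt.mpr le_self_add)

end Pool.Agent.Work.MP_dfab40_lc.R
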