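import Pool.Agent.Work.MP_dfab40_lc.R.B.Cop

/-!
# Module `InDef` (size S): the coding of sets by divisibility

* `Dp.inn`: first for the identity coordinates over `∅`: `In z p q ↔ ∃ k, k < p + 1 ∧
  p = (1 + (z + 1) * q) * k` (if `p = m * k` with `m = 1 + .. ≥ 1` then `k ≤ p`: `k = 1 * k ≤ m * k`).
  This is `Dp` on the context `M × (M × M)` by `Dp.bex` (with `S = ∅`: the instance
  `IS (∅ : Set (Set M))` comes from `ISig M`), `Dp.eq`, `Df.add`, `Df.mul`, `Df.fst`, `Df.snd`,
  `Df.id`, `Df.const`.  Then `Dp.mono (Set.empty_subset S)` and `Dp.comp` with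
  `Df.pair hf (Df.pair hg hh)`.
* `In.lt`: `p = m * k`, `k ≠ 0`, so `p ≥ m = 1 + (z + 1) * q ≥ 1 + (z + 1) > z`.
-/

namespace Pool.Agent.Work.MP_dfab40_lc.R

/-- `z` belongs to the set coded by `p, q`. -/
def In {M : Type} [PAm M] (z p q : M) : Prop := (1 + (z + 1) * q) ∣ p

theorem In.lt {M : Type} [PAm M] {z p q : M} (hp : 0 < p) (hq : 0 < q) (h : In z p q) : z < p := by
  obtain ⟨k, rfl⟩ := h
  have hk : k ≠ 0 := by
    rintro rfl
    rw [mul_zero] at hp
    exact lt_irrefl _ hp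
  have hk1 : 1 ≤ k := PAm.one_le_of_pos k (pos_iff_ne_zero.2 hk)
  have hq1 : 1 ≤ q := PAm.one_le_of_pos q hq
  calc z < 1 + (z + 1) := by
        have h1 : z < z + (1 + 1) := by
          have : (0 : M) < 1 + 1 := by positivity
          exact lt_add_of_pos_right z this
        calc z < z + (1 + 1) := h1
          _ = 1 + (z + 1) := by ring
    _ = 1 + (z + 1) * 1 := by ring
    _ ≤ 1 + (z + 1) * q := by gcongr
    _ = (1 + (z + 1) * q) * 1 := by ring
    _ ≤ (1 + (z + 1) * q) * k := by gcongr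

variable {M : Type} [PAm M] [ISig M] {A : Type} [Cd M A] {S : Set (Set M)}

theorem Dp.inn {f g h : A → M} (hf : Df S f) (hg : Df S g) (hh : Df S h) :
    Dp S (fun a => In (f a) (g a) (h a)) := by
  have h1 : Dp (∅ : Set (Set M)) (fun p : M × (M × M) => In p.1 p.2.1 p.2.2) := by
    have h2 : Dp (∅ : Set (Set M)) (fun p : M × (M × M) => ∃ k, k < p.2.1 + 1 ∧
        p.2.1 = (1 + (p.1 + 1) * p.2.2) * k) := by
      refine Dp.bex (f := fun p : M × (M × M) => p.2.1 + 1)
        (P := fun (p : M × (M × M)) k => p.2.1 = (1 + (p.1 + 1) * p.2.2) * k)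
        (Df.add (Df.fst (Df.snd Df.id)) (Df.const 1)) ?_
      refine Dp.eq (Df.fst (Df.snd (Df.fst Df.id))) (Df.mul (Df.add (Df.const 1)
        (Df.mul (Df.add (Df.fst (Df.fst Df.id)) (Df.const 1)) (Df.snd (Df.snd (Df.fst Df.id)))))
        (Df.snd Df.id))
    refine Dp.congr h2 ?_
    rintro ⟨z, p, q⟩
    constructor
    · rintro ⟨k, -, hk⟩
      exact ⟨k, hk⟩
    · rintro ⟨k, hk⟩
      refine ⟨k, lt_succ_iff.2 ?_, hk⟩
      have hk' : p = (1 + (z + 1) * q) * k := hk
      change k ≤ p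
      rw [hk']
      calc k = 1 * k := by ring
        _ ≤ (1 + (z + 1) * q) * k := by
          gcongr
          exact le_self_add
  exact Dp.comp (P := fun p : M × (M × M) => In p.1 p.2.1 p.2.2) (Dp.mono (Set.empty_subset S) h1)
    (Df.pair hf (Df.pair hg hh))

end Pool.Agent.Work.MP_dfab40_lc.R
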