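import Pool.Agent.Work.MP_dfab40_lc.R.B.Rec

/-!
# Module `Pow` (size S): `2^x`; the definitions of the coding of finite sets

`exists_pow2`: `exists_rec` with `A = M`, `S = ∅`, `g _ = 1`, `h p = 2 * p.2.2` (`Df.mul`, `Df.const`,
`Df.snd`); take `f 0` (the parameter `a = 0`), `Df.comp` with `Df.pair (Df.const 0) Df.id`.
`Df.pow2`: `S1.mono (Set.empty_subset S)` of the choice (`Df` is an `S1` statement), then `Df.comp`.

(The definitions of this file are those of `R/ApiB.lean`; `ApiB` will import the files of `R/B`.)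
-/

namespace Pool.Agent.Work.MP_dfab40_lc.R

variable {M : Type} [PAm M] [ISig M] {A B D : Type} [Cd M A] [Cd M B] [Cd M D]
variable {S : Set (Set M)}

theorem exists_pow2 : ∃ f : M → M, Df (∅ : Set (Set M)) f ∧ f 0 = 1 ∧ ∀ x, f (x + 1) = 2 * f x := by
  obtain ⟨f, hf, h0, hs⟩ := exists_rec (A := M) (S := (∅ : Set (Set M))) (g := fun _ : M => (1 : M))
    (h := fun p : M × (M × M) => 2 * p.2.2) (Df.const 1)
    (Df.mul (Df.const 2) (Df.snd (Df.snd Df.id)))
  exact ⟨f 0, Df.comp (f := fun p : M × M => f p.1 p.2) (g := fun x : M => ((0 : M), x)) hf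
    (Df.pair (Df.const 0) Df.id), h0 0, hs 0⟩

/-- `2^x` -/
noncomputable def pow2 (x : M) : M := (exists_pow2 (M := M)).choose x

theorem pow2_zero : pow2 (0 : M) = 1 := (exists_pow2 (M := M)).choose_spec.2.1

theorem pow2_succ (x : M) : pow2 (x + 1) = 2 * pow2 x := (exists_pow2 (M := M)).choose_spec.2.2 x

private theorem pow2_df0 : Df S (fun x : M => pow2 x) :=
  S1.mono (Set.empty_subset S) (exists_pow2 (M := M)).choose_spec.1

theorem Df.pow2 {f : A → M} (hf : Df S f) : Df S (fun a => pow2 (f a)) := by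
  exact Df.comp (f := fun x : M => R.pow2 x) (g := f) pow2_df0 hf

/-- Ackermann membership: `a = pow2 (x + 1) * q + pow2 x + r`, `r < pow2 x`. -/
def Mem (x a : M) : Prop := ∃ q r, r < pow2 x ∧ a = pow2 (x + 1) * q + pow2 x + r

/-- The (code of the) finite set `{x < n | P x}`. -/
noncomputable def sep (n : M) (P : M → Prop) : M :=
  open Classical in if h : ∃ a, ∀ x, Mem x a ↔ x < n ∧ P x then h.choose else 0

/-- Union. -/
noncomputable def un (a b : M) : M := sep (a + b) (fun x => Mem x a ∨ Mem x b)

/-- Insertion. -/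
noncomputable def ins (x a : M) : M := un (pow2 x) a

/-- Restriction to numbers `< n`. -/
noncomputable def rst (a n : M) : M := sep n (fun x => Mem x a)

/-- Value of the function coded by `z` at `x`: the least `y` with `pr x y ∈ z` (0 if none). -/
noncomputable def ap (z x : M) : M := mu (fun y => Mem (pr x y) z)

/-- The table of a function on `[0, n)`. -/
noncomputable def tab (n : M) (f : M → M) : M :=
  open Classical in if h : ∃ z, (∀ x, x < n → ap z x = f x) ∧
    ∀ m, (∀ x, x < n → f x < m) → z < pow2 ((n + m) * (n + m)) then h.choose else 0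

end Pool.Agent.Work.MP_dfab40_lc.R
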