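import Pool.Agent.Work.MP_dfab40_lc.R.B.Pow

/-!
# Module `PowL` (size S-M): properties of `2^x`, uniqueness of division

All inductions are `ind_Dp` with `S = ∅` (facts `Dp` by `Dp.lt`, `Dp.eq`, `Df.pow2`, `Df.mul`,
`Df.add`, `Df.const`, `Df.id`).
* `pow2_pos`: induction.  `pow2_add`: induction on `y`.
* `pow2_lt`: `y = x + (d + 1)`; `pow2 (x + d + 1) = 2 * (pow2 x * pow2 d) ≥ 2 * pow2 x > pow2 x`
  (`one_le_of_pos` for `pow2 d`).  `pow2_le` from `pow2_lt`.
* `lt_pow2`: `x + 1 ≤ pow2 x` by induction: `x + 2 ≤ pow2 x + pow2 x`.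
* `div_unique`: if `q < q'` then `b * q' ≥ b * q + b > b * q + r`, contradiction; symmetric; then cancel.
-/

namespace Pool.Agent.Work.MP_dfab40_lc.R

theorem div_unique {M : Type} [PAm M] {b q q' r r' : M} (hr : r < b) (hr' : r' < b)
    (h : b * q + r = b * q' + r') : q = q' ∧ r = r' := by
  have key : ∀ {q q' r r' : M}, r < b → b * q + r = b * q' + r' → ¬ q < q' := by
    intro q q' r r' hr h hq
    have h1 : q + 1 ≤ q' := succ_le_iff'.2 hq
    have h2 : b * q + r < b * q' + r' := by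
      calc b * q + r < b * q + b := by gcongr
        _ = b * (q + 1) := by ring
        _ ≤ b * q' := by gcongr
        _ ≤ b * q' + r' := le_self_add
    exact absurd h h2.ne
  have hq : q = q' := by
    rcases lt_trichotomy q q' with h1 | h1 | h1
    · exact absurd h1 (key hr h)
    · exact h1
    · exact absurd h1 (key hr' h.symm)
  subst hq
  exact ⟨rfl, add_left_cancel h⟩

variable {M : Type} [PAm M] [ISig M]

theorem pow2_pos (x : M) : 0 < pow2 x := by
  have hd : Dp (∅ : Set (Set M)) (fun x : M => 0 < pow2 x) :=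
    Dp.lt (Df.const 0) (Df.pow2 Df.id)
  refine ind_Dp hd ?_ ?_ x
  · rw [pow2_zero]; exact zero_lt_one
  · intro x hx
    rw [pow2_succ]
    positivity

theorem pow2_add (x y : M) : pow2 (x + y) = pow2 x * pow2 y := by
  have hd : Dp (∅ : Set (Set M)) (fun y : M => pow2 (x + y) = pow2 x * pow2 y) :=
    Dp.eq (Df.pow2 (Df.add (Df.const x) Df.id)) (Df.mul (Df.const (pow2 x)) (Df.pow2 Df.id))
  refine ind_Dp hd ?_ ?_ y
  · rw [add_zero, pow2_zero, mul_one]
  · intro y hy
    rw [← add_assoc, pow2_succ, pow2_succ, hy]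
    ring

theorem pow2_lt {x y : M} (h : x < y) : pow2 x < pow2 y := by
  obtain ⟨d, rfl⟩ : ∃ d, y = x + 1 + d := le_iff_exists_add.1 (succ_le_iff'.2 h)
  have h1 : 1 ≤ pow2 d := PAm.one_le_of_pos _ (pow2_pos d)
  have h2 := pow2_pos x
  rw [pow2_add, pow2_succ]
  calc pow2 x < pow2 x + pow2 x := lt_add_of_pos_right _ h2
    _ = 2 * pow2 x * 1 := by ring
    _ ≤ 2 * pow2 x * pow2 d := by gcongr

theorem pow2_le {x y : M} (h : x ≤ y) : pow2 x ≤ pow2 y := by
  rcases h.eq_or_lt with h | h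
  · rw [h]
  · exact (pow2_lt h).le

theorem lt_pow2 (x : M) : x < pow2 x := by
  have hd : Dp (∅ : Set (Set M)) (fun x : M => x < pow2 x) := Dp.lt Df.id (Df.pow2 Df.id)
  refine ind_Dp hd ?_ ?_ x
  · exact pow2_pos 0
  · intro x hx
    rw [pow2_succ, two_mul]
    have h1 : 1 ≤ pow2 x := PAm.one_le_of_pos _ (pow2_pos x)
    exact add_lt_add_of_lt_of_le hx h1

end Pool.Agent.Work.MP_dfab40_lc.R
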