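import Pool.Agent.Work.MP_dfab40_lc.R.B.Beta

/-!
# Module `Rec` (size M): primitive recursion

Put `Run a x z := beta z 0 = g a ∧ ∀ i, i < x → beta z (i + 1) = h (a, (i, beta z i))`.
1. `Run` is `Dp S` on the context `A × (M × M)` (also use it with `a` or `x` fixed, by `Dp.comp` with
   `Df.pair`, `Df.const`, `Df.id`): `Dp.and`, `Dp.eq`, `Dp.ball`, `Df.beta`, `Df.comp hh`.
2. For all `a, x` there is `z` with `Run a x z`: `ind_S1` on `x` (`a` fixed).  Base: `exists_beta` for
   the constant function `g a` and `n = 1`.  Step: given `z` for `x`, use `exists_beta` for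
   `f i := if i ≤ x then beta z i else h (a, (x, beta z x))` (`Df.ite`, `Dp.le`) and `n = x + 2`
   (`x + 1 + 1`); for `i < x + 1` either `i < x` (old equation, `i + 1 ≤ x`) or `i = x`.
3. Uniqueness: `Run a x z`, `Run a x z'` imply `beta z i = beta z' i` for all `i ≤ x`: `ind_Dp` for
   `i ↦ (i ≤ x → beta z i = beta z' i)` (`Dp.imp`, `Dp.le`, `Dp.eq`).
4. `f a x := beta (choose z) x`.  `f a x = y ↔ ∃ z, Run a x z ∧ beta z x = y` by 2, 3; the right side
   is `S1` on `(A × M) × M` (`S1.ex`, `Dp.and .. .1`), so `Df.of_graph`.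
5. `f a 0 = g a` from `Run a 0 z`.  `f a (x+1)`: take `z` with `Run a (x+1) z`; `Run a x z` holds too,
   so `f a x = beta z x`, `f a (x+1) = beta z (x+1) = h (a, (x, beta z x))`.
-/

namespace Pool.Agent.Work.MP_dfab40_lc.R

variable {M : Type} [PAm M] [ISig M] {A : Type} [Cd M A] {S : Set (Set M)}

private def RunP (g : A → M) (h : A × (M × M) → M) (a : A) (x z : M) : Prop :=
  beta z 0 = g a ∧ ∀ i, i < x → beta z (i + 1) = h (a, (i, beta z i))

private theorem runP_dp [IS S] {g : A → M} {h : A × (M × M) → M} (hg : Df S g) (hh : Df S h) :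
    Dp S (fun p : A × (M × M) => RunP g h p.1 p.2.1 p.2.2) := by
  refine Dp.and (Dp.eq (Df.beta (Df.snd (Df.snd Df.id)) (Df.const 0))
    (Df.comp hg (Df.fst Df.id))) ?_
  refine Dp.ball (f := fun p : A × (M × M) => p.2.1)
    (P := fun (p : A × (M × M)) i => beta p.2.2 (i + 1) = h (p.1, (i, beta p.2.2 i)))
    (Df.fst (Df.snd Df.id)) ?_
  refine Dp.eq (Df.beta (Df.snd (Df.snd (Df.fst Df.id))) (Df.add (Df.snd Df.id) (Df.const 1))) ?_
  exact Df.comp (f := h) (g := fun q : (A × (M × M)) × M => (q.1.1, (q.2, beta q.1.2.2 q.2))) hh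
    (Df.pair (Df.fst (Df.fst Df.id)) (Df.pair (Df.snd Df.id)
      (Df.beta (Df.snd (Df.snd (Df.fst Df.id))) (Df.snd Df.id))))

private theorem runP_ex [IS S] {g : A → M} {h : A × (M × M) → M} (hg : Df S g) (hh : Df S h)
    (a : A) (x : M) : ∃ z, RunP g h a x z := by
  refine ind_S1 (S := S) (P := fun x => ∃ z, RunP g h a x z) ?_ ?_ ?_ x
  · refine S1.ex (P := fun x z => RunP g h a x z) ?_
    exact (Dp.comp (P := fun p : A × (M × M) => RunP g h p.1 p.2.1 p.2.2)
      (f := fun q : M × M => (a, q)) (runP_dp hg hh) (Df.pair (Df.const a) Df.id)).1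
  · obtain ⟨z, hz⟩ := exists_beta (S := S) (f := fun _ => g a) (Df.const (g a)) 1
    exact ⟨z, hz 0 zero_lt_one, fun i hi => absurd hi (not_lt.2 zero_le)⟩
  · rintro x ⟨z, h0, hs⟩
    have hf := Df.ite (S := S) (P := fun i : M => i ≤ x) (f := fun i => beta z i)
      (g := fun _ => h (a, (x, beta z x))) (Dp.le Df.id (Df.const x))
      (Df.beta (Df.const z) Df.id) (Df.const _)
    obtain ⟨z', hz'⟩ := exists_beta hf (x + 1 + 1)
    have hle : ∀ i, i ≤ x → beta z' i = beta z i := fun i hi => by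
      rw [hz' i (lt_succ_iff.2 (hi.trans (le_add_of_nonneg_right zero_le)))]
      exact if_pos hi
    have hlast : beta z' (x + 1) = h (a, (x, beta z x)) := by
      rw [hz' (x + 1) (lt_add_of_pos_right _ zero_lt_one)]
      exact if_neg (not_le.2 (lt_add_of_pos_right _ zero_lt_one))
    refine ⟨z', by rw [hle 0 zero_le, h0], fun i hi => ?_⟩
    rcases (lt_succ_iff.1 hi).lt_or_eq with h1 | h1
    · rw [hle i h1.le, hle (i + 1) (succ_le_iff'.2 h1)]
      exact hs i h1
    · rw [h1, hlast, hle x le_rfl]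

private theorem runP_uniq [IS S] {g : A → M} {h : A × (M × M) → M} {a : A} {x z z' : M}
    (h1 : RunP g h a x z) (h2 : RunP g h a x z') : ∀ i, i ≤ x → beta z i = beta z' i := by
  intro i
  refine ind_Dp (S := (∅ : Set (Set M))) (P := fun i => i ≤ x → beta z i = beta z' i) ?_ ?_ ?_ i
  · exact Dp.imp (Dp.le Df.id (Df.const x))
      (Dp.eq (Df.beta (Df.const z) Df.id) (Df.beta (Df.const z') Df.id))
  · intro _
    rw [h1.1, h2.1]
  · intro i ih hi
    have h3 : i < x := succ_le_iff'.1 hi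
    rw [h1.2 i h3, h2.2 i h3, ih h3.le]

/-- Primitive recursion with parameters. -/
theorem exists_rec [IS S] {g : A → M} {h : A × (M × M) → M} (hg : Df S g) (hh : Df S h) :
    ∃ f : A → M → M, Df S (fun p : A × M => f p.1 p.2) ∧ (∀ a, f a 0 = g a) ∧
      ∀ a x, f a (x + 1) = h (a, (x, f a x)) := by
  have hex : ∀ (a : A) (x : M), ∃ z, RunP g h a x z := fun a x => runP_ex hg hh a x
  choose Z hZ using hex
  refine ⟨fun a x => beta (Z a x) x, ?_, ?_, ?_⟩
  · refine Df.of_graph (R := fun (p : A × M) y => ∃ z, RunP g h p.1 p.2 z ∧ beta z p.2 = y) ?_ ?_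
    · refine S1.ex (P := fun (q : (A × M) × M) z => RunP g h q.1.1 q.1.2 z ∧ beta z q.1.2 = q.2) ?_
      refine S1.and (Dp.comp (P := fun p : A × (M × M) => RunP g h p.1 p.2.1 p.2.2)
        (f := fun r : ((A × M) × M) × M => (r.1.1.1, (r.1.1.2, r.2))) (runP_dp hg hh)
        (Df.pair (Df.fst (Df.fst (Df.fst Df.id)))
          (Df.pair (Df.snd (Df.fst (Df.fst Df.id))) (Df.snd Df.id)))).1 ?_
      exact (Dp.eq (Df.beta (Df.snd Df.id) (Df.snd (Df.fst (Df.fst Df.id))))
        (Df.snd (Df.fst Df.id))).1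
    · rintro ⟨a, x⟩ y
      constructor
      · intro h1
        exact ⟨Z a x, hZ a x, h1⟩
      · rintro ⟨z, hz, h1⟩
        rw [← h1]
        exact runP_uniq (S := S) (hZ a x) hz x le_rfl
  · intro a
    exact (hZ a 0).1
  · intro a x
    have hx : x < x + 1 := lt_add_of_pos_right _ zero_lt_one
    have h1 : RunP g h a x (Z a (x + 1)) :=
      ⟨(hZ a (x + 1)).1, fun i hi => (hZ a (x + 1)).2 i (hi.trans hx)⟩
    have h2 := (hZ a (x + 1)).2 x hx
    rw [runP_uniq (S := S) h1 (hZ a x) x le_rfl] at h2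
    exact h2

end Pool.Agent.Work.MP_dfab40_lc.R
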