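import Pool.Agent.Work.MP_dfab40_lc.R.B.Compr

/-!
# Module `Sets` (size S-M): union, insertion, restriction, bounded quantifiers

* `mem_un`: `mem_sep` with `S = ∅` (`Dp.or (Dp.mem ..) (Dp.mem ..)`), `mem_lt`, `x < a ≤ a + b`.
  `Df.un`: over `∅` for the coordinates of `M × M` by `Df.sep`, then `S1.mono (Set.empty_subset S)`
  (`Df` is an `S1` statement) and `Df.comp` with `Df.pair hf hg`.
* `mem_ins`: `mem_un` and `Mem y (pow2 x) ↔ y = x`: (←) `mem_top` with `r = 0`; (→) `y ≤ x` by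
  `mem_lt_of_lt_pow2` (`pow2 x < pow2 (x+1)`, `pow2_lt`), and if `y < x` then `mem_low'` with `r = 0`
  gives `Mem y 0`.
* `mem_rst`, `Df.rst`: as for `un`.
* `Dp.exMem`: `∃ y, Mem y (f a) ∧ P a y ↔ ∃ y, y < f a ∧ (Mem y (f a) ∧ P a y)` (`mem_lt`), `Dp.bex`,
  `Dp.and`, `Dp.mem`, `Dp.congr`.  `Dp.allMem`: the same with `Dp.ball`, `Dp.imp`.
-/

namespace Pool.Agent.Work.MP_dfab40_lc.R

variable {M : Type} [PAm M] [ISig M] {A : Type} [Cd M A] {S : Set (Set M)}

private theorem un_dp (a b : M) : Dp (∅ : Set (Set M)) (fun x => Mem x a ∨ Mem x b) :=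
  Dp.or (Dp.mem Df.id (Df.const a)) (Dp.mem Df.id (Df.const b))

@[simp] theorem mem_un {a b x : M} : Mem x (un a b) ↔ Mem x a ∨ Mem x b := by
  unfold un
  rw [mem_sep (un_dp a b)]
  constructor
  · exact fun h => h.2
  · intro h
    refine ⟨?_, h⟩
    rcases h with h | h
    · exact lt_of_lt_of_le (mem_lt h) (le_add_of_nonneg_right zero_le)
    · exact lt_of_lt_of_le (mem_lt h) (le_add_of_nonneg_left zero_le)

theorem Df.un {f g : A → M} (hf : Df S f) (hg : Df S g) : Df S (fun a => un (f a) (g a)) := by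
  have h0 : Df (∅ : Set (Set M)) (fun p : M × M => R.un p.1 p.2) := by
    refine Df.sep (f := fun p : M × M => p.1 + p.2) (P := fun p x => Mem x p.1 ∨ Mem x p.2)
      (Df.add (Df.fst Df.id) (Df.snd Df.id)) ?_
    exact Dp.or (Dp.mem (Df.snd Df.id) (Df.fst (Df.fst Df.id)))
      (Dp.mem (Df.snd Df.id) (Df.snd (Df.fst Df.id)))
  have h1 : Df S (fun p : M × M => R.un p.1 p.2) := S1.mono (Set.empty_subset S) h0
  exact Df.comp (f := fun p : M × M => R.un p.1 p.2) (g := fun a => (f a, g a)) h1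
    (Df.pair hf hg)

theorem mem_pow2 {x y : M} : Mem y (pow2 x) ↔ y = x := by
  constructor
  · intro h
    have h1 : y < x + 1 := mem_lt_of_lt_pow2 (pow2_lt (lt_succ_iff.2 le_rfl)) h
    rcases eq_or_lt_of_le (lt_succ_iff.1 h1) with h2 | h2
    · exact h2
    · have h3 : Mem y (pow2 x + 0) := by rw [add_zero]; exact h
      rw [mem_low' 0 h2] at h3
      exact absurd h3 (not_mem_zero y)
  · intro h
    rw [h]
    have h1 := mem_top (pow2_pos x)
    rw [add_zero] at h1
    exact h1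

@[simp] theorem mem_ins {a x y : M} : Mem y (ins x a) ↔ y = x ∨ Mem y a := by
  unfold ins
  rw [mem_un, mem_pow2]

theorem Df.ins {f g : A → M} (hf : Df S f) (hg : Df S g) : Df S (fun a => ins (f a) (g a)) :=
  Df.un (Df.pow2 hf) hg

@[simp] theorem mem_rst {a n x : M} : Mem x (rst a n) ↔ x < n ∧ Mem x a := by
  unfold rst
  have h : Dp (∅ : Set (Set M)) (fun x => Mem x a) := Dp.mem Df.id (Df.const a)
  rw [mem_sep h]

theorem Df.rst {f g : A → M} (hf : Df S f) (hg : Df S g) : Df S (fun a => rst (f a) (g a)) := by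
  have h0 : Df (∅ : Set (Set M)) (fun p : M × M => R.rst p.1 p.2) := by
    refine Df.sep (f := fun p : M × M => p.2) (P := fun p x => Mem x p.1) (Df.snd Df.id) ?_
    exact Dp.mem (Df.snd Df.id) (Df.fst (Df.fst Df.id))
  have h1 : Df S (fun p : M × M => R.rst p.1 p.2) := S1.mono (Set.empty_subset S) h0
  exact Df.comp (f := fun p : M × M => R.rst p.1 p.2) (g := fun a => (f a, g a)) h1
    (Df.pair hf hg)

theorem Dp.exMem [IS S] {f : A → M} {P : A → M → Prop} (hf : Df S f)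
    (hP : Dp S (fun p : A × M => P p.1 p.2)) : Dp S (fun a => ∃ y, Mem y (f a) ∧ P a y) := by
  have h1 : Dp S (fun a => ∃ y, y < f a ∧ (Mem y (f a) ∧ P a y)) := by
    refine Dp.bex (f := f) (P := fun a y => Mem y (f a) ∧ P a y) hf (Dp.and ?_ hP)
    exact Dp.mem (Df.snd Df.id) (Df.comp hf (Df.fst Df.id))
  refine h1.congr fun a => ?_
  constructor
  · rintro ⟨y, _, h⟩
    exact ⟨y, h⟩
  · rintro ⟨y, h⟩
    exact ⟨y, mem_lt h.1, h⟩

theorem Dp.allMem [IS S] {f : A → M} {P : A → M → Prop} (hf : Df S f)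
    (hP : Dp S (fun p : A × M => P p.1 p.2)) : Dp S (fun a => ∀ y, Mem y (f a) → P a y) := by
  have h1 : Dp S (fun a => ∀ y, y < f a → (Mem y (f a) → P a y)) := by
    refine Dp.ball (f := f) (P := fun a y => (Mem y (f a) → P a y)) hf (Dp.imp ?_ hP)
    exact Dp.mem (Df.snd Df.id) (Df.comp hf (Df.fst Df.id))
  refine h1.congr fun a => ?_
  constructor
  · intro h y hy
    exact h y (mem_lt hy) hy
  · intro h y _ hy
    exact h y hy

end Pool.Agent.Work.MP_dfab40_lc.R
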