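import Pool.Agent.Work.MP_dfab40_lc.R.B.Sets

/-!
# Module `TabB` (size M): finite functions, images

* `Df.ap`: over `∅` for the coordinates `(z, x)` of `M × M` by `Df.of_graph`:
  `ap z x = y ↔ (Mem (pr x y) z ∧ ∀ y', y' < y → ¬ Mem (pr x y') z) ∨
  (y = 0 ∧ ∀ y', y' < z → ¬ Mem (pr x y') z)`.
  (`Mem (pr x y') z` implies `y' ≤ pr x y' < z`, `right_le_pr`, `mem_lt`; if some `y` has
  `Mem (pr x y) z` there is a least one by `least_S1` (`S = ∅`), and then `mu` is this one: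
  `mu_spec`, `mu_le` (`S = ∅`); if there is none `mu = 0` by `dif_neg`, unfold `mu`.)
  Then `S1.mono (Set.empty_subset S)` and `Df.comp` with `Df.pair hf hg`.
* `exists_tab`: `c` a bound of `f` on `[0, n)` (`Df.bdd`), `N = (n + c) * (n + c)`.  `compr` for
  `P w := fs w < n ∧ sn w = f (fs w)` (`Dp.and`, `Dp.lt`, `Dp.eq`, `Df.comp hf`) gives `z` with
  `Mem w z ↔ w < N ∧ P w`.  For `x < n`: `Mem (pr x y) z ↔ y = f x` (`fs_pr`, `sn_pr`, and
  `pr x (f x) < N` by `pr_lt_sq`).  So `ap z x = f x` (`mu_spec`, `mu_le`, or uniqueness).  Bound: if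
  `f x < m` for all `x < n`, then every `w` with `Mem w z` is `pr x (f x)` with `x < n`
  (`w = pr (fs w) (sn w)`, `pr_fs_sn`), so `w < (n + m) * (n + m)` by `pr_lt_sq`; use `lt_pow2_iff`.
* `ap_tab`, `tab_lt`: `dif_pos (exists_tab hf n)` and `choose_spec`.
* `exists_image`: `c` a bound of `f` on `[0, a)` (`Df.bdd`); `compr` for `P y := ∃ x, Mem x a ∧ f x = y`
  (`Dp.exMem` with `Df.const a`) and the number `c` (`mem_lt`).
-/

namespace Pool.Agent.Work.MP_dfab40_lc.R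

variable {M : Type} [PAm M] [ISig M] {A : Type} [Cd M A] {S : Set (Set M)}

private theorem dp_pt {M : Type} [PAm M] [ISig M] (x z : M) :
    Dp (∅ : Set (Set M)) (fun y : M => Mem (pr x y) z) :=
  Dp.mem (Df.pr (Df.const x) Df.id) (Df.const z)

private theorem df_ap0 {M : Type} [PAm M] [ISig M] :
    Df (∅ : Set (Set M)) (fun p : M × M => ap p.1 p.2) := by
  refine Df.of_graph (R := fun (p : M × M) (y : M) =>
    (Mem (pr p.2 y) p.1 ∧ ∀ y', y' < y → ¬ Mem (pr p.2 y') p.1) ∨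
      (y = 0 ∧ ∀ y', y' < p.1 → ¬ Mem (pr p.2 y') p.1)) ?_ ?_
  · refine (Dp.or (Dp.and ?_ ?_) (Dp.and ?_ ?_)).1
    · exact Dp.mem (Df.pr (Df.snd (Df.fst Df.id)) (Df.snd Df.id)) (Df.fst (Df.fst Df.id))
    · exact Dp.ball (f := fun q : (M × M) × M => q.2)
        (P := fun (q : (M × M) × M) (y' : M) => ¬ Mem (pr q.1.2 y') q.1.1) (Df.snd Df.id)
        (Dp.not (Dp.mem (Df.pr (Df.snd (Df.fst (Df.fst Df.id))) (Df.snd Df.id))
          (Df.fst (Df.fst (Df.fst Df.id)))))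
    · exact Dp.eq (Df.snd Df.id) (Df.const 0)
    · exact Dp.ball (f := fun q : (M × M) × M => q.1.1)
        (P := fun (q : (M × M) × M) (y' : M) => ¬ Mem (pr q.1.2 y') q.1.1) (Df.fst (Df.fst Df.id))
        (Dp.not (Dp.mem (Df.pr (Df.snd (Df.fst (Df.fst Df.id))) (Df.snd Df.id))
          (Df.fst (Df.fst (Df.fst Df.id)))))
  · rintro ⟨z, x⟩ y
    have hP := dp_pt x z
    by_cases h : ∃ y, Mem (pr x y) z
    · have h1 : Mem (pr x (ap z x)) z := mu_spec hP h
      constructor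
      · rintro rfl
        exact Or.inl ⟨h1, fun y' hy' h2 => absurd (mu_le hP h2) (not_le.2 hy')⟩
      · rintro (⟨h2, h3⟩ | ⟨_, h3⟩)
        · refine le_antisymm (mu_le hP h2) (not_lt.1 fun h4 => h3 _ h4 h1)
        · obtain ⟨y0, hy0⟩ := h
          exact absurd hy0 (h3 y0 (lt_of_le_of_lt (right_le_pr x y0) (mem_lt hy0)))
    · have h1 : ap z x = 0 := by
        unfold ap mu
        rw [dif_neg]
        rintro ⟨y0, hy0, _⟩
        exact h ⟨y0, hy0⟩
      show ap z x = y ↔ _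
      rw [h1]
      constructor
      · rintro rfl
        exact Or.inr ⟨rfl, fun y' _ h2 => h ⟨y', h2⟩⟩
      · rintro (⟨h2, _⟩ | ⟨h2, _⟩)
        · exact absurd ⟨y, h2⟩ h
        · exact h2.symm

theorem Df.ap {f g : A → M} (hf : Df S f) (hg : Df S g) : Df S (fun a => ap (f a) (g a)) := by
  have h0 : Df S (fun p : M × M => Pool.Agent.Work.MP_dfab40_lc.R.ap p.1 p.2) :=
    S1.mono (Set.empty_subset S) df_ap0
  exact Df.comp (f := fun p : M × M => Pool.Agent.Work.MP_dfab40_lc.R.ap p.1 p.2) h0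
    (Df.pair hf hg)

theorem exists_tab [IS S] {f : M → M} (hf : Df S f) (n : M) : ∃ z, (∀ x, x < n → ap z x = f x) ∧
    ∀ m, (∀ x, x < n → f x < m) → z < pow2 ((n + m) * (n + m)) := by
  obtain ⟨c, hc⟩ := Df.bdd hf n
  have hP : Dp S (fun w : M => fs w < n ∧ sn w = f (fs w)) :=
    Dp.and (Dp.lt (Df.fs Df.id) (Df.const n)) (Dp.eq (Df.sn Df.id) (Df.comp hf (Df.fs Df.id)))
  obtain ⟨z, hz⟩ := compr hP ((n + c) * (n + c))
  have key : ∀ x, x < n → ∀ y, Mem (pr x y) z ↔ y = f x := by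
    intro x hx y
    rw [hz, fs_pr, sn_pr]
    constructor
    · exact fun h => h.2.2
    · rintro rfl
      exact ⟨pr_lt_sq (lt_of_lt_of_le hx (le_add_of_nonneg_right zero_le))
        (lt_of_lt_of_le (hc x hx) (le_add_of_nonneg_left zero_le)), hx, rfl⟩
  refine ⟨z, fun x hx => ?_, fun m hm => ?_⟩
  · have h1 : Mem (pr x (ap z x)) z :=
      mu_spec (dp_pt x z) ⟨f x, (key x hx (f x)).2 rfl⟩
    exact (key x hx _).1 h1
  · rw [lt_pow2_iff]
    intro w hw
    obtain ⟨_, h2, h3⟩ := (hz w).1 hw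
    rw [← pr_fs_sn w]
    refine pr_lt_sq (lt_of_lt_of_le h2 (le_add_of_nonneg_right zero_le)) ?_
    rw [h3]
    exact lt_of_lt_of_le (hm _ h2) (le_add_of_nonneg_left zero_le)

theorem ap_tab [IS S] {f : M → M} (hf : Df S f) {n x : M} (h : x < n) : ap (tab n f) x = f x := by
  unfold tab
  rw [dif_pos (exists_tab hf n)]
  exact (exists_tab hf n).choose_spec.1 x h

theorem tab_lt [IS S] {f : M → M} (hf : Df S f) {n m : M} (h : ∀ x, x < n → f x < m) :
    tab n f < pow2 ((n + m) * (n + m)) := by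
  unfold tab
  rw [dif_pos (exists_tab hf n)]
  exact (exists_tab hf n).choose_spec.2 m h

/-- The image of a finite set under a `Δ_1` function is a finite set. -/
theorem exists_image [IS S] {f : M → M} (hf : Df S f) (a : M) :
    ∃ b, ∀ y, Mem y b ↔ ∃ x, Mem x a ∧ f x = y := by
  obtain ⟨c, hc⟩ := Df.bdd hf a
  have hP : Dp S (fun y : M => ∃ x, Mem x a ∧ f x = y) :=
    Dp.exMem (f := fun _ : M => a) (P := fun (y x : M) => f x = y) (Df.const a)
      (Dp.eq (Df.comp hf (Df.snd Df.id)) (Df.fst Df.id))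
  obtain ⟨b, hb⟩ := compr hP c
  refine ⟨b, fun y => ?_⟩
  rw [hb]
  constructor
  · exact fun h => h.2
  · rintro ⟨x, hx, rfl⟩
    exact ⟨hc x (mem_lt hx), x, hx, rfl⟩

end Pool.Agent.Work.MP_dfab40_lc.R
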